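import Mathlib
import Pool.Agent.VeronDual.F3Cover

/-!
# The dual polar space of type B_2 over F_3 has no absolutely universal veronesean embedding
-/

namespace Pool.Agent.Results.MP_fb3c19_co.NoUniversalF3

open Pool.Agent.VeronDual LinearAlgebra.Projectivization

universe u

/-- For the field with three elements and `n = 2` there is no absolutely universal veronesean
embedding; indeed there are two veronesean embeddings, in dimensions `7` and `6`, that are not
quotients of a common veronesean embedding. -/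
theorem result :
    ¬ HasAbsUniversal.{u, 0} (ZMod 3) 2 ∧
    ∃ (ε₁ : Pt (ZMod 3) 2 → ℙ (ZMod 3) (Fin 7 → ZMod 3))
      (ε₂ : Pt (ZMod 3) 2 → ℙ (ZMod 3) (Fin 6 → ZMod 3)),
      IsVerEmb ε₁ ∧ IsVerEmb ε₂ ∧ ¬ HaveCommonCover.{u} ε₁ ε₂ := by
  refine ⟨?_, F3.goodA.emb, F3.goodB.emb, F3.goodA.isVerEmb, F3.goodB.isVerEmb, ?_⟩
  · rintro ⟨W, _, _, ε, hε, h⟩
    exact F3.no_common_cover hε (h _ _ F3.goodA.isVerEmb) (h _ _ F3.goodB.isVerEmb)
  · rintro ⟨W, _, _, ε, hε, h⟩
    exact F3.no_common_cover hε h.1 h.2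

end Pool.Agent.Results.MP_fb3c19_co.NoUniversalF3
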