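import Mathlib
import Pool.Agent.VeronDual.F2

/-!
# Over the field with two elements the dual polar space of type B_n has an absolutely universal
veronesean embedding
-/

namespace Pool.Agent.Results.MP_fb3c19_co.UniversalF2

open Pool.Agent.VeronDual LinearAlgebra.Projectivization

universe v

/-- For the field with two elements and every `n` the dual polar space of type `B_n` has an
absolutely universal veronesean embedding. -/
theorem result (n : ℕ) : HasAbsUniversal.{0, v} (ZMod 2) n :=
  ⟨Pt (ZMod 2) n →₀ ZMod 2, inferInstance, inferInstance, F2.free n, F2.free_isAbsUniversal⟩

end Pool.Agent.Results.MP_fb3c19_co.UniversalF2
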